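import Pool.Agent.Q199.Mem.Reach
set_option autoImplicit false

namespace Pool.Agent.Q199.Mem

/-- parity -/
def par (n : ℕ) : Fin 2 := ⟨n % 2, Nat.mod_lt _ two_pos⟩

theorem par_eq {i j : ℕ} : par i = par j ↔ i % 2 = j % 2 := by
  simp [par]

variable {C : Type} {op : C → ℕ → ℕ}

/-- Protagonist needs two states of general memory for the safety condition. -/
theorem genOK_safe (hop : Good op) : GenOK (safeW op) 2 := by
  classical
  intro A
  have hup : ∀ v i j, le2 i j → ¬ RA op A A.Pᶜ v i → ¬ RA op A A.Pᶜ v j :=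
    fun v i j h h1 h2 => h1 (RA_down hop h h2)
  let HR : A.V → Fin 2 → Prop := fun v i => ∃ n, par n = i ∧ ¬ RA op A A.Pᶜ v n
  let rep : A.V → Fin 2 → ℕ := fun v i => if h : HR v i then Nat.find h else 0
  have rep_spec : ∀ v i, HR v i → par (rep v i) = i ∧ ¬ RA op A A.Pᶜ v (rep v i) := by
    intro v i h
    simp only [rep, dif_pos h]
    exact Nat.find_spec h
  have rep_le : ∀ v i n, par n = i → ¬ RA op A A.Pᶜ v n → le2 (rep v i) n := by
    intro v i n h1 h2
    subst h1
    have h : HR v (par n) := ⟨n, rfl, h2⟩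
    have h3 : rep v (par n) ≤ n := by
      simp only [rep, dif_pos h]
      exact Nat.find_min' h ⟨rfl, h2⟩
    have h4 := (rep_spec v (par n) h).1
    rw [par_eq] at h4
    unfold le2
    omega
  have choice : ∀ v i, ∃ e : A.Edge, (e ∈ A.E ∧ e.1 = v) ∧
      (v ∈ A.P → HR v i → ¬ RA op A A.Pᶜ e.2.2 (op e.2.1 (rep v i))) := by
    intro v i
    by_cases hv : v ∈ A.P
    · by_cases h : HR v i
      · have h2 := (rep_spec v i h).2
        by_contra hcon
        push Not at hcon
        apply h2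
        apply RA_of_not_mem (Set.notMem_compl_iff.mpr hv)
        intro e he hs
        exact (hcon e ⟨he, hs⟩).2.2
      · obtain ⟨c, w, hw⟩ := A.out v
        exact ⟨_, ⟨hw, rfl⟩, fun _ h' => absurd h' h⟩
    · obtain ⟨c, w, hw⟩ := A.out v
      exact ⟨_, ⟨hw, rfl⟩, fun h' => absurd h' hv⟩
  choose ch hch hch2 using choice
  let m : MemStr A (Fin 2) := ⟨par 1, fun i e => par (op e.2.1 (rep e.1 i))⟩
  refine ⟨m, stratOf m ch hch, stratOf_builtOn m ch hch, ?_⟩
  rintro u ⟨S', hS'⟩ e he
  have hWu : ¬ RA op A A.Pᶜ u 1 := by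
    intro hr
    obtain ⟨e', he', t, ht⟩ := exists_reaching hop.zero hr S'
    exact hS' e' he' t ht
  have inv : ∀ t, HR (e t).1 (m.run ((List.range t).map e)) ∧
      le2 (rep (e t).1 (m.run ((List.range t).map e)))
        (runFrom op 1 (fun i => (e i).2.1) t) := by
    intro t
    induction t with
    | zero =>
      have h0 : m.run ((List.range 0).map e) = par 1 := rfl
      rw [h0, he.1]
      exact ⟨⟨1, rfl, hWu⟩, rep_le u _ 1 rfl hWu⟩
    | succ t ih =>
      obtain ⟨h1, h2⟩ := ih
      rw [run_succ]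
      set x := m.run ((List.range t).map e) with hx
      have hsp := rep_spec _ _ h1
      have h3 : ¬ RA op A A.Pᶜ (e t).2.2 (op (e t).2.1 (rep (e t).1 x)) := by
        by_cases hv : (e t).1 ∈ A.P
        · have hmv := play_stratOf he t hv
          have := hch2 (e t).1 x hv h1
          rw [← hx] at hmv
          rw [← hmv] at this
          exact this
        · intro hr
          exact hsp.2 (RA_of_mem hv ⟨e t, he.2.1 t, rfl, hr⟩)
      rw [he.2.2.1 t]
      refine ⟨⟨_, rfl, h3⟩, ?_⟩
      have h4 := rep_le (e t).2.2 (par (op (e t).2.1 (rep (e t).1 x))) _ rfl h3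
      exact le2_trans h4 (hop.mono _ h2)
  intro t h0
  obtain ⟨h1, h2⟩ := inv t
  have hsp := (rep_spec _ _ h1).2
  rw [h0] at h2
  have := le2_le h2
  have h5 : rep (e t).1 (m.run ((List.range t).map e)) = 0 := by omega
  rw [h5] at hsp
  exact hsp (RA_zero _)

/-- Protagonist needs two states of general memory for the complement of the safety condition. -/
theorem genOK_compl (hop : Good op) : GenOK (safeW op)ᶜ 2 := by
  classical
  intro A
  have := A.finV
  let _ := Fintype.ofFinite A.V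
  obtain ⟨B, hB⟩ : ∃ B, ∀ u, RA op A A.P u 1 → Reach op A A.P B B u 1 := by
    have : ∀ u : A.V, ∃ B, RA op A A.P u 1 → Reach op A A.P B B u 1 := by
      intro u
      by_cases h : RA op A A.P u 1
      · obtain ⟨N, k, h⟩ := h
        exact ⟨max N k, fun _ => reach_mono (le_max_left _ _) (le_max_right _ _) h⟩
      · exact ⟨0, fun h' => absurd h' h⟩
    choose f hf using this
    refine ⟨Finset.univ.sup f, fun u hu => ?_⟩
    have : f u ≤ Finset.univ.sup f := Finset.le_sup (Finset.mem_univ u)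
    exact reach_mono this this (hf u hu)
  let WN : A.V → ℕ → Prop := fun v n => ∃ k, Reach op A A.P B k v n
  have WN_le : ∀ v n, WN v n → n ≤ B := by
    rintro v n ⟨k, h⟩
    cases k with
    | zero =>
      simp only [Reach] at h
      omega
    | succ k =>
      rcases h with h | ⟨h, _⟩
      · omega
      · exact h
  let rk : A.V → ℕ → ℕ := fun v n => if h : WN v n then Nat.find h else 0
  have rk_spec : ∀ v n, WN v n → Reach op A A.P B (rk v n) v n := by
    intro v n h
    simp only [rk, dif_pos h]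
    exact Nat.find_spec h
  have rk_le : ∀ v n k, Reach op A A.P B k v n → rk v n ≤ k := by
    intro v n k h
    have h' : WN v n := ⟨k, h⟩
    simp only [rk, dif_pos h']
    exact Nat.find_min' h' h
  have stepP : ∀ v n, WN v n → n ≠ 0 → v ∈ A.P →
      ∃ e ∈ A.E, e.1 = v ∧ WN e.2.2 (op e.2.1 n) ∧ rk e.2.2 (op e.2.1 n) < rk v n := by
    intro v n h hn hv
    have h1 := rk_spec v n h
    obtain ⟨k, hk⟩ : ∃ k, rk v n = k + 1 := by
      rcases Nat.eq_zero_or_pos (rk v n) with h0 | h0
      · rw [h0] at h1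
        exact absurd h1 hn
      · exact ⟨rk v n - 1, by omega⟩
    rw [hk] at h1
    rcases h1 with h1 | ⟨_, h2, _⟩
    · exact absurd h1 hn
    · obtain ⟨e, he, hs, hr⟩ := h2 hv
      exact ⟨e, he, hs, ⟨k, hr⟩, by have := rk_le _ _ _ hr; omega⟩
  have stepA : ∀ v n, WN v n → n ≠ 0 → v ∉ A.P →
      ∀ e ∈ A.E, e.1 = v → WN e.2.2 (op e.2.1 n) ∧ rk e.2.2 (op e.2.1 n) < rk v n := by
    intro v n h hn hv e he hs
    have h1 := rk_spec v n h
    obtain ⟨k, hk⟩ : ∃ k, rk v n = k + 1 := by
      rcases Nat.eq_zero_or_pos (rk v n) with h0 | h0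
      · rw [h0] at h1
        exact absurd h1 hn
      · exact ⟨rk v n - 1, by omega⟩
    rw [hk] at h1
    rcases h1 with h1 | ⟨_, _, h3⟩
    · exact absurd h1 hn
    · have hr := h3 hv e he hs
      exact ⟨⟨k, hr⟩, by have := rk_le _ _ _ hr; omega⟩
  let HR : A.V → Fin 2 → Prop := fun v i => ∃ n, par n = i ∧ WN v n
  let rep : A.V → Fin 2 → ℕ := fun v i => Nat.findGreatest (fun n => par n = i ∧ WN v n) B
  have rep_spec : ∀ v i, HR v i → par (rep v i) = i ∧ WN v (rep v i) := by
    rintro v i ⟨n, h1, h2⟩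
    exact Nat.findGreatest_spec (P := fun n => par n = i ∧ WN v n) (WN_le v n h2) ⟨h1, h2⟩
  have rep_ge : ∀ v n, WN v n → le2 n (rep v (par n)) := by
    intro v n h2
    have h3 : n ≤ rep v (par n) :=
      Nat.le_findGreatest (P := fun m => par m = par n ∧ WN v m) (WN_le v n h2) ⟨rfl, h2⟩
    have h4 := (rep_spec v (par n) ⟨n, rfl, h2⟩).1
    rw [par_eq] at h4
    unfold le2
    omega
  have choice : ∀ v i, ∃ e : A.Edge, (e ∈ A.E ∧ e.1 = v) ∧
      (v ∈ A.P → HR v i → rep v i ≠ 0 → WN e.2.2 (op e.2.1 (rep v i)) ∧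
        rk e.2.2 (op e.2.1 (rep v i)) < rk v (rep v i)) := by
    intro v i
    by_cases h : v ∈ A.P ∧ HR v i ∧ rep v i ≠ 0
    · obtain ⟨e, he, hs, h1⟩ := stepP v _ (rep_spec v i h.2.1).2 h.2.2 h.1
      exact ⟨e, ⟨he, hs⟩, fun _ _ _ => h1⟩
    · obtain ⟨c, w, hw⟩ := A.out v
      exact ⟨_, ⟨hw, rfl⟩, fun h1 h2 h3 => absurd ⟨h1, h2, h3⟩ h⟩
  choose ch hch hch2 using choice
  let m : MemStr A (Fin 2) := ⟨par 1, fun i e => par (op e.2.1 (rep e.1 i))⟩
  refine ⟨m, stratOf m ch hch, stratOf_builtOn m ch hch, ?_⟩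
  rintro u ⟨S', hS'⟩ e he
  have hWu : RA op A A.P u 1 := by
    by_contra hr
    obtain ⟨e', he', ht⟩ := exists_avoiding hr S'
    exact hS' e' he' ht
  have hWu' : WN u 1 := ⟨B, hB u hWu⟩
  intro hnz
  simp only [safeW] at hnz
  change ∀ t, runFrom op 1 (fun i => (e i).2.1) t ≠ 0 at hnz
  set r : ℕ → ℕ := runFrom op 1 (fun i => (e i).2.1) with hr
  have inv : ∀ t, HR (e t).1 (m.run ((List.range t).map e)) ∧
      le2 (r t) (rep (e t).1 (m.run ((List.range t).map e))) := by
    intro t
    induction t with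
    | zero =>
      have h0 : m.run ((List.range 0).map e) = par 1 := rfl
      rw [h0, he.1]
      exact ⟨⟨1, rfl, hWu'⟩, rep_ge u 1 hWu'⟩
    | succ t ih =>
      obtain ⟨h1, h2⟩ := ih
      rw [run_succ]
      set x := m.run ((List.range t).map e) with hx
      have hsp := rep_spec _ _ h1
      have hne : rep (e t).1 x ≠ 0 := by
        have := le2_le h2
        have := hnz t
        omega
      have h3 : WN (e t).2.2 (op (e t).2.1 (rep (e t).1 x)) := by
        by_cases hv : (e t).1 ∈ A.P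
        · have hmv := play_stratOf he t hv
          have := hch2 (e t).1 x hv h1 hne
          rw [← hx] at hmv
          rw [← hmv] at this
          exact this.1
        · exact (stepA _ _ hsp.2 hne hv (e t) (he.2.1 t) rfl).1
      rw [he.2.2.1 t]
      refine ⟨⟨_, rfl, h3⟩, ?_⟩
      exact le2_trans (hop.mono _ h2) (rep_ge _ _ h3)
  -- the measure
  let F : ℕ → ℕ × ℕ := fun t =>
    (B - (rep (e t).1 (m.run ((List.range t).map e)) - r t),
      rk (e t).1 (rep (e t).1 (m.run ((List.range t).map e))))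
  have hwf : IsWellFounded (ℕ × ℕ) (Prod.Lex (· < ·) (· < ·)) :=
    ⟨WellFounded.prod_lex wellFounded_lt wellFounded_lt⟩
  obtain ⟨t, ht⟩ := WellFounded.not_rel_apply_succ (h := hwf) F
  apply ht
  have h1 := (inv t).1
  have h2 := (inv t).2
  have h2' := (inv (t + 1)).2
  have h1' := (inv (t + 1)).1
  have hle1 := le2_le h2
  have hle2 := le2_le h2'
  have hn1 := hnz t
  have hn2 := hnz (t + 1)
  have hWB := WN_le _ _ (rep_spec _ _ h1').2
  simp only [F]
  rw [run_succ, he.2.2.1 t] at h1' h2' hle2 hWB ⊢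
  set x := m.run ((List.range t).map e) with hx
  have hsp := rep_spec _ _ h1
  have hne : rep (e t).1 x ≠ 0 := by omega
  have h3 : WN (e t).2.2 (op (e t).2.1 (rep (e t).1 x)) ∧
      rk (e t).2.2 (op (e t).2.1 (rep (e t).1 x)) < rk (e t).1 (rep (e t).1 x) := by
    by_cases hv : (e t).1 ∈ A.P
    · have hmv := play_stratOf he t hv
      have := hch2 (e t).1 x hv h1 hne
      rw [← hx] at hmv
      rw [← hmv] at this
      exact this
    · exact stepA _ _ hsp.2 hne hv (e t) (he.2.1 t) rfl
  have hupd : m.upd x (e t) = par (op (e t).2.1 (rep (e t).1 x)) := rfl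
  have h4 := rep_ge _ _ h3.1
  rw [← hupd] at h4
  have h5 := le2_le h4
  have hrs : r (t + 1) = op (e t).2.1 (r t) := rfl
  -- the deficiency does not decrease
  have h6 : r (t + 1) + (rep (e t).1 x - r t) ≤ op (e t).2.1 (rep (e t).1 x) := by
    rcases h2 with h2 | h2 | h2
    · rw [hrs, h2]
      omega
    · exact absurd h2 hn1
    · rcases hop.exp (e t).2.1 (r t) _ (by omega) h2 with h7 | h7
      · rw [← hrs] at h7
        exact absurd h7 hn2
      · rw [hrs]
        exact h7
  rcases Nat.lt_or_ge (op (e t).2.1 (rep (e t).1 x)) (rep (e t).2.2 (m.upd x (e t))) with h8 | h8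
  · apply Prod.Lex.left
    omega
  · have h9 : rep (e t).2.2 (m.upd x (e t)) = op (e t).2.1 (rep (e t).1 x) := by omega
    rcases Nat.lt_or_ge (rep (e t).1 x - r t) (rep (e t).2.2 (m.upd x (e t)) - r (t + 1))
      with h10 | h10
    · apply Prod.Lex.left
      omega
    · have h11 : B - (rep (e t).2.2 (m.upd x (e t)) - r (t + 1)) =
          B - (rep (e t).1 x - r t) := by omega
      rw [h11, h9]
      exact Prod.Lex.right _ h3.2

end Pool.Agent.Q199.Mem
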