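import Pool.Agent.Q199.Mem.Bound
set_option autoImplicit false

namespace Pool.Agent.Q199.Mem

variable {C : Type}

/-- counter value after a finite word -/
def stw (op : C → ℕ → ℕ) (q : ℕ) (l : List C) : ℕ := l.foldl (fun n c => op c n) q

theorem stw_cons (op : C → ℕ → ℕ) (q : ℕ) (c : C) (l : List C) :
    stw op q (c :: l) = stw op (op c q) l := rfl

theorem stw_append (op : C → ℕ → ℕ) (q : ℕ) (l l' : List C) :
    stw op q (l ++ l') = stw op (stw op q l) l' := by
  rw [stw, stw, stw, List.foldl_append]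

theorem stw_zero (op : C → ℕ → ℕ) : ∀ (l : List C), (∀ c ∈ l, op c 0 = 0) → stw op 0 l = 0
  | [], _ => rfl
  | c :: l, h => by
      rw [stw_cons, h c (by simp)]
      exact stw_zero op l fun c hc => h c (by simp [hc])

/-- nodes of the cyclic arena: a flag and the word still to be read -/
abbrev CycV (C : Type) (L : ℕ) : Type := Bool × {l : List C // l.length ≤ L}

/-- the edges of the cyclic arena -/
def cycE (g h : C) (w₁ w₂ z₁ z₂ : List C) (L : ℕ) : Set (CycV C L × C × CycV C L) :=
  {e | (e.1.2.1 = e.2.1 :: e.2.2.2.1 ∧ e.2.2.1 = e.1.1) ∨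
    (e.1.2.1 = [] ∧ e.1.1 = false ∧ e.2.1 = h ∧ e.2.2.1 = true ∧
      (e.2.2.2.1 = z₁ ∨ e.2.2.2.1 = z₂)) ∨
    (e.1.2.1 = [] ∧ e.1.1 = true ∧ e.2.1 = g ∧ e.2.2.1 = false ∧
      (e.2.2.2.1 = w₁ ∨ e.2.2.2.1 = w₂))}

/-- the cyclic arena: Antagonist chooses between the words `w₁` and `w₂`, then Protagonist chooses
between the words `z₁` and `z₂`, and so on. -/
def cyc [Finite C] (g h : C) (w₁ w₂ z₁ z₂ : List C) (L : ℕ) (h₁ : w₁.length ≤ L)
    (h₂ : z₁.length ≤ L) : Arena C where
  V := CycV C L
  finV := by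
    have : Finite {l : List C // l.length ≤ L} := (List.finite_length_le C L).to_subtype
    infer_instance
  neV := ⟨(false, ⟨[], by simp⟩)⟩
  P := {x | x.1 = false ∧ x.2.1 = []}
  E := cycE g h w₁ w₂ z₁ z₂ L
  finE := by
    have : Finite {l : List C // l.length ≤ L} := (List.finite_length_le C L).to_subtype
    exact Set.toFinite _
  out := by
    rintro ⟨b, l, hl⟩
    cases l with
    | cons c l =>
      refine ⟨c, (b, ⟨l, ?_⟩), Or.inl ⟨rfl, rfl⟩⟩
      simp only [List.length_cons] at hl
      omega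
    | nil =>
      cases b with
      | false => exact ⟨h, (true, ⟨z₁, h₂⟩), Or.inr (Or.inl ⟨rfl, rfl, rfl, rfl, Or.inl rfl⟩)⟩
      | true => exact ⟨g, (false, ⟨w₁, h₁⟩), Or.inr (Or.inr ⟨rfl, rfl, rfl, rfl, Or.inl rfl⟩)⟩

theorem chromatic_fun {A : Arena C} {M : Type} {m : MemStr A M} (hm : m.Chromatic) :
    ∃ f : C → M → M, ∀ x, ∀ e ∈ A.E, m.upd x e = f e.2.1 x := by
  classical
  refine ⟨fun c x => if h : ∃ e ∈ A.E, e.2.1 = c then m.upd x h.choose else x, ?_⟩
  intro x e he
  have h : ∃ e' ∈ A.E, e'.2.1 = e.2.1 := ⟨e, he, rfl⟩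
  simp only [dif_pos h]
  exact hm x e _ he h.choose_spec.1 h.choose_spec.2.symm

theorem run_snoc {A : Arena C} {M : Type} (m : MemStr A M) (p : List A.Edge) (e : A.Edge) :
    m.run (p ++ [e]) = m.upd (m.run p) e := by
  rw [MemStr.run, List.foldl_append]
  rfl

theorem cyc_main [Finite C] (op : C → ℕ → ℕ) (g h : C) (k N : ℕ) (w₁ w₂ z₁ z₂ : List C)
    (hN : N ≠ 0)
    (hw₁ : stw op 1 w₁ = N + 1) (hw₂ : stw op 1 w₂ = N)
    (h11 : stw op (N + 1) (h :: z₁) = 0) (h12 : stw op (N + 1) (h :: z₂) = 1)
    (h21 : stw op N (h :: z₁) = 1) (h22 : stw op N (h :: z₂) = 0)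
    (hg1 : op g 1 = 1) (hg0 : op g 0 = 1 ∨ ∀ c, op c 0 = 0)
    (ow₁ : ∀ c ∈ w₁, op c 0 = 0) (ow₂ : ∀ c ∈ w₂, op c 0 = 0)
    (oz₁ : ∀ c ∈ z₁, op c 0 = 0) (oz₂ : ∀ c ∈ z₂, op c 0 = 0)
    (hf : ∀ (f : C → Fin k → Fin k) (x : Fin k),
      w₁.foldl (fun x c => f c x) x = w₂.foldl (fun x c => f c x) x) :
    ∃ (A : Arena C) (u : A.V),
      (∃ S : Strategy A, ∀ e, S.Play u e → ∀ t, runFrom op 1 (fun i => (e i).2.1) t ≠ 0) ∧
      ∀ (m : MemStr A (Fin k)) (S : Strategy A), m.Chromatic → S.BuiltOn m →
        ∃ e, S.Play u e ∧ ∀ T, ∃ t, T ≤ t ∧ (e t).2.1 = g ∧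
          runFrom op 1 (fun i => (e i).2.1) t = 0 := by
  classical
  let L := w₁.length + w₂.length + z₁.length + z₂.length
  have lw₁ : w₁.length ≤ L := by simp only [L]; omega
  have lw₂ : w₂.length ≤ L := by simp only [L]; omega
  have lz₁ : z₁.length ≤ L := by simp only [L]; omega
  have lz₂ : z₂.length ≤ L := by simp only [L]; omega
  let A : Arena C := cyc g h w₁ w₂ z₁ z₂ L lw₁ lz₁
  let u : A.V := (true, ⟨[], by simp⟩)
  let hub : A.V := (false, ⟨[], by simp⟩)
  let Z₁ : A.Edge := (hub, h, (true, ⟨z₁, lz₁⟩))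
  let Z₂ : A.Edge := (hub, h, (true, ⟨z₂, lz₂⟩))
  have hZ₁ : Z₁ ∈ A.E := Or.inr (Or.inl ⟨rfl, rfl, rfl, rfl, Or.inl rfl⟩)
  have hZ₂ : Z₂ ∈ A.E := Or.inr (Or.inl ⟨rfl, rfl, rfl, rfl, Or.inr rfl⟩)
  have hPhub : ∀ v : A.V, v ∈ A.P → v = hub := by
    rintro ⟨b, l, hl⟩ ⟨h1, h2⟩
    simp only at h1 h2
    subst h1 h2
    rfl
  have hhubP : hub ∈ A.P := ⟨rfl, rfl⟩
  refine ⟨A, u, ?_, ?_⟩
  · -- the winning strategy
    refine ⟨⟨fun _ p => if st op 1 p = N + 1 then Z₂ else Z₁, ?_⟩, ?_⟩
    · intro u' p v _ hv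
      rw [hPhub v hv]
      split
      · exact ⟨hZ₂, rfl⟩
      · exact ⟨hZ₁, rfl⟩
    · intro e he
      set r : ℕ → ℕ := runFrom op 1 (fun i => (e i).2.1) with hr
      have inv : ∀ t, (∀ c ∈ (e t).1.2.1, op c 0 = 0) ∧
          (((e t).1.1 = false ∧ (stw op (r t) (e t).1.2.1 = N ∨
            stw op (r t) (e t).1.2.1 = N + 1)) ∨
          ((e t).1.1 = true ∧ stw op (r t) (e t).1.2.1 = 1)) := by
        intro t
        induction t with
        | zero =>
          rw [he.1]
          refine ⟨by simp [u], Or.inr ⟨rfl, rfl⟩⟩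
        | succ t ih =>
          obtain ⟨ih1, ih2⟩ := ih
          rw [he.2.2.1 t]
          have hrs : r (t + 1) = op (e t).2.1 (r t) := rfl
          have hE := he.2.1 t
          rcases hE with ⟨hE1, hE2⟩ | ⟨hE1, hE2, hE3, hE4, hE5⟩ | ⟨hE1, hE2, hE3, hE4, hE5⟩
          · rw [hE1] at ih1 ih2
            rw [stw_cons, ← hrs, ← hE2] at ih2
            exact ⟨fun c hc => ih1 c (by simp [hc]), ih2⟩
          · have hvP : (e t).1 ∈ A.P := ⟨hE2, hE1⟩
            have hmv : e t = if st op 1 ((List.range t).map e) = N + 1 then Z₂ else Z₁ :=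
              he.2.2.2 t hvP
            rw [st_prefix] at hmv
            change e t = if r t = N + 1 then Z₂ else Z₁ at hmv
            rw [hE1, hE2] at ih2
            simp only [stw, List.foldl_nil, Bool.false_eq_true, false_and, or_false,
              true_and] at ih2
            rw [hE4, hrs, hE3]
            split at hmv
            · rename_i h1
              rw [hmv, h1]
              exact ⟨oz₂, Or.inr ⟨rfl, h12⟩⟩
            · rename_i h1
              have h2 : r t = N := by omega
              rw [hmv, h2]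
              exact ⟨oz₁, Or.inr ⟨rfl, h21⟩⟩
          · rw [hE1, hE2] at ih2
            simp only [stw, List.foldl_nil, Bool.true_eq_false, false_and, false_or,
              true_and] at ih2
            rw [hE4, hrs, hE3, ih2, hg1]
            rcases hE5 with hE5 | hE5
            · rw [hE5]
              exact ⟨ow₁, Or.inl ⟨rfl, Or.inr hw₁⟩⟩
            · rw [hE5]
              exact ⟨ow₂, Or.inl ⟨rfl, Or.inl hw₂⟩⟩
      intro t h0
      obtain ⟨h1, h2⟩ := inv t
      rw [h0, stw_zero op _ h1] at h2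
      rcases h2 with ⟨_, h2⟩ | ⟨_, h2⟩ <;> omega
  · -- no chromatic strategy
    intro m S hm hS
    obtain ⟨f, hfu⟩ := chromatic_fun hm
    let F : List C → Fin k → Fin k := fun l x => l.foldl (fun x c => f c x) x
    let cc : Fin k → Prop := fun x =>
      ∃ p, A.IsPath u p hub ∧ m.run p = x ∧ S.move u p = Z₁
    have key := exists_play S u (fun p v =>
      (v.1 = false ∧
        (cc (F v.2.1 (m.run p)) → stw op (st op 1 p) (v.2.1 ++ h :: z₁) = 0) ∧
        (¬ cc (F v.2.1 (m.run p)) → stw op (st op 1 p) (v.2.1 ++ h :: z₂) = 0)) ∨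
      (v.1 = true ∧ (stw op (st op 1 p) v.2.1 = 0 ∨ (v.2.1 = [] ∧ p = []))))
      (Or.inr ⟨rfl, Or.inr ⟨rfl, rfl⟩⟩) ?_ ?_
    · obtain ⟨e, he, hinv⟩ := key
      refine ⟨e, he, ?_⟩
      -- recurrence
      have nx : ∀ t c l, (e t).1.2.1 = c :: l →
          (e (t + 1)).1.1 = (e t).1.1 ∧ (e (t + 1)).1.2.1 = l := by
        intro t c l h1
        rw [he.2.2.1 t]
        rcases he.2.1 t with ⟨hE1, hE2⟩ | ⟨hE1, _⟩ | ⟨hE1, _⟩
        · rw [h1] at hE1
          rw [List.cons.injEq] at hE1
          exact ⟨hE2, hE1.2.symm⟩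
        · rw [h1] at hE1
          exact absurd hE1 (by simp)
        · rw [h1] at hE1
          exact absurd hE1 (by simp)
      have nxs : ∀ l t, (e t).1.2.1 = l →
          (e (t + l.length)).1.1 = (e t).1.1 ∧ (e (t + l.length)).1.2.1 = [] := by
        intro l
        induction l with
        | nil => intro t h1; exact ⟨rfl, h1⟩
        | cons c l ih =>
          intro t h1
          obtain ⟨h2, h3⟩ := nx t c l h1
          obtain ⟨h4, h5⟩ := ih (t + 1) h3
          have h6 : t + (c :: l).length = t + 1 + l.length := by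
            simp only [List.length_cons]
            omega
          rw [h6]
          exact ⟨h4.trans h2, h5⟩
      intro T
      obtain ⟨t, htT, ht1, ht2⟩ : ∃ t, T + 1 ≤ t ∧ (e t).1.1 = true ∧ (e t).1.2.1 = [] := by
        obtain ⟨h1, h2⟩ := nxs _ (T + 1) rfl
        rcases hb : (e (T + 1)).1.1 with _ | _
        · rw [hb] at h1
          set t₁ := T + 1 + (e (T + 1)).1.2.1.length with ht₁
          have h3 : (e (t₁ + 1)).1.1 = true := by
            rw [he.2.2.1]
            rcases he.2.1 t₁ with ⟨hE1, hE2⟩ | ⟨_, _, _, hE4, _⟩ | ⟨_, hE2, _⟩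
            · rw [h2] at hE1
              exact absurd hE1 (by simp)
            · exact hE4
            · rw [h1] at hE2
              exact absurd hE2 (by simp)
          obtain ⟨h4, h5⟩ := nxs _ (t₁ + 1) rfl
          exact ⟨_, by omega, h4.trans h3, h5⟩
        · exact ⟨_, by omega, h1.trans hb, h2⟩
      refine ⟨t, by omega, ?_, ?_⟩
      · rcases he.2.1 t with ⟨hE1, _⟩ | ⟨_, hE2, _⟩ | ⟨_, _, hE3, _⟩
        · rw [ht2] at hE1
          exact absurd hE1 (by simp)
        · rw [ht1] at hE2
          exact absurd hE2 (by simp)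
        · exact hE3
      · rcases hinv t with ⟨h1, _⟩ | ⟨_, h2 | ⟨_, h3⟩⟩
        · rw [ht1] at h1
          exact absurd h1 (by simp)
        · rw [ht2] at h2
          rw [← st_prefix]
          exact h2
        · have : ((List.range t).map e).length = 0 := by rw [h3]; rfl
          simp only [List.length_map, List.length_range] at this
          omega
    · -- Protagonist's nodes
      intro p v hp hi hv
      have hvh := hPhub v hv
      subst hvh
      obtain ⟨h1, h2⟩ := S.valid u p hub hp hv
      rcases hi with ⟨_, hi1, hi2⟩ | ⟨hi, _⟩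
      · right
        have hmv : S.move u p = Z₁ ∨ S.move u p = Z₂ := by
          rcases hmv : S.move u p with ⟨x, c, b, l, hl⟩
          rw [hmv] at h1 h2
          simp only at h2
          subst h2
          rcases h1 with ⟨hE1, _⟩ | ⟨_, _, hE3, hE4, hE5⟩ | ⟨_, hE2, _⟩
          · exact absurd hE1 (by simp [hub])
          · simp only at hE3 hE4 hE5
            subst hE3 hE4
            rcases hE5 with hE5 | hE5
            · left
              subst hE5
              rfl
            · right
              subst hE5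
              rfl
          · exact absurd hE2 (by simp [hub])
        have hF : F (hub.2.1) (m.run p) = m.run p := rfl
        rw [hF] at hi1 hi2
        rw [st_snoc]
        by_cases hc : cc (m.run p)
        · have h3 := hi1 hc
          obtain ⟨p', hp', hrun, hmv'⟩ := hc
          have h4 : S.move u p = Z₁ := by
            rw [← hmv']
            exact hS u u p p' hub hp hp' hv hrun.symm
          rw [h4]
          exact ⟨rfl, Or.inl h3⟩
        · have h3 := hi2 hc
          have h4 : S.move u p = Z₂ := by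
            rcases hmv with h5 | h5
            · exact absurd ⟨p, hp, rfl, h5⟩ hc
            · exact h5
          rw [h4]
          exact ⟨rfl, Or.inl h3⟩
      · exact absurd hi (by simp [hub])
    · -- Antagonist's nodes
      rintro p ⟨b, l, hl⟩ hp hi hv
      cases l with
      | cons c l =>
        have hl' : l.length ≤ L := by
          simp only [List.length_cons] at hl
          omega
        let e : A.Edge := ((b, ⟨c :: l, hl⟩), c, (b, ⟨l, hl'⟩))
        have he : e ∈ A.E := Or.inl ⟨rfl, rfl⟩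
        refine ⟨e, he, rfl, ?_⟩
        rw [run_snoc, st_snoc, hfu _ e he]
        rcases hi with ⟨hi, hi1, hi2⟩ | ⟨hi, hi1 | ⟨hi1, _⟩⟩
        · exact Or.inl ⟨hi, hi1, hi2⟩
        · exact Or.inr ⟨hi, Or.inl hi1⟩
        · exact absurd hi1 (by simp)
      | nil =>
        cases b with
        | false => exact absurd ⟨rfl, rfl⟩ hv
        | true =>
          have hn : op g (st op 1 p) = 1 ∨ (op g (st op 1 p) = 0 ∧ ∀ c, op c 0 = 0) := by
            rcases hi with ⟨hi, _⟩ | ⟨_, hi1 | ⟨_, hi1⟩⟩
            · exact absurd hi (by simp)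
            · have hi2 : st op 1 p = 0 := hi1
              rw [hi2]
              rcases hg0 with h0 | h0
              · exact Or.inl h0
              · exact Or.inr ⟨h0 g, h0⟩
            · left
              rw [hi1]
              exact hg1
          by_cases hc : cc (F w₁ (f g (m.run p)))
          · let e : A.Edge := ((true, ⟨[], hl⟩), g, (false, ⟨w₁, lw₁⟩))
            have he : e ∈ A.E := Or.inr (Or.inr ⟨rfl, rfl, rfl, rfl, Or.inl rfl⟩)
            refine ⟨e, he, rfl, Or.inl ⟨rfl, ?_, ?_⟩⟩
            · intro _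
              rw [st_snoc]
              change stw op (op g (st op 1 p)) (w₁ ++ h :: z₁) = 0
              rcases hn with hn | ⟨hn, hz⟩
              · rw [hn, stw_append, hw₁, h11]
              · rw [hn]
                exact stw_zero op _ fun c _ => hz c
            · intro hnc
              rw [run_snoc, hfu _ e he] at hnc
              exact absurd hc hnc
          · let e : A.Edge := ((true, ⟨[], hl⟩), g, (false, ⟨w₂, lw₂⟩))
            have he : e ∈ A.E := Or.inr (Or.inr ⟨rfl, rfl, rfl, rfl, Or.inr rfl⟩)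
            refine ⟨e, he, rfl, Or.inl ⟨rfl, ?_, ?_⟩⟩
            · intro hyc
              rw [run_snoc, hfu _ e he] at hyc
              have h9 : F w₁ (f g (m.run p)) = F w₂ (f g (m.run p)) := hf f _
              rw [h9] at hc
              exact absurd hyc hc
            · intro _
              rw [st_snoc]
              change stw op (op g (st op 1 p)) (w₂ ++ h :: z₂) = 0
              rcases hn with hn | ⟨hn, hz⟩
              · rw [hn, stw_append, hw₂, h22]
              · rw [hn]
                exact stw_zero op _ fun c _ => hz c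

end Pool.Agent.Q199.Mem
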