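import Mathlib
set_option autoImplicit false

/-! # Finite arenas, strategies, general and chromatic memory

Definitions used in the hand-ins for MP_674d90_lc, MP_4814b8_lc and MP_def589_lc. -/

namespace Pool.Agent.Q199.Mem

/-- A (finite) arena over the set of colours `C`. -/
structure Arena (C : Type) where
  /-- the set of nodes -/
  V : Type
  finV : Finite V
  neV : Nonempty V
  /-- Protagonist's nodes; all the other nodes belong to Antagonist -/
  P : Set V
  /-- the set of edges -/
  E : Set (V × C × V)
  finE : E.Finite
  /-- every node has an outgoing edge -/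
  out : ∀ v : V, ∃ (c : C) (w : V), (v, c, w) ∈ E

variable {C : Type}

/-- Triples (source, colour, target); the edges of `A` are the elements of `A.E`. -/
abbrev Arena.Edge (A : Arena C) : Type := A.V × C × A.V

/-- `A.IsPath u p v`: the list of edges `p` is a finite path from `u` to `v`
(the empty list is the empty path at `u`). -/
def Arena.IsPath (A : Arena C) : A.V → List A.Edge → A.V → Prop
  | u, [], v => u = v
  | u, e :: p, v => e ∈ A.E ∧ e.1 = u ∧ A.IsPath e.2.2 p v

/-- A Protagonist strategy: it assigns to every finite path (given by its starting node and its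
list of edges) ending in a node `v` of Protagonist an outgoing edge of `v`. -/
structure Strategy (A : Arena C) where
  move : A.V → List A.Edge → A.Edge
  valid : ∀ (u : A.V) (p : List A.Edge) (v : A.V), A.IsPath u p v → v ∈ A.P →
    move u p ∈ A.E ∧ (move u p).1 = v

/-- `S.Play u e`: the sequence of edges `e` is an infinite play from `u` consistent with `S`. -/
def Strategy.Play {A : Arena C} (S : Strategy A) (u : A.V) (e : ℕ → A.Edge) : Prop :=
  (e 0).1 = u ∧ (∀ i, e i ∈ A.E) ∧ (∀ i, (e (i + 1)).1 = (e i).2.2) ∧
    ∀ i, (e i).1 ∈ A.P → e i = S.move u ((List.range i).map e)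

/-- `S` wins from `u`: the colour sequence of every infinite play from `u` consistent with `S`
belongs to `W`. -/
def Strategy.Wins {A : Arena C} (S : Strategy A) (W : Set (ℕ → C)) (u : A.V) : Prop :=
  ∀ e : ℕ → A.Edge, S.Play u e → (fun i => (e i).2.1) ∈ W

/-- `S` is optimal for `W`: it wins from every node from which some Protagonist strategy wins. -/
def Strategy.Optimal {A : Arena C} (S : Strategy A) (W : Set (ℕ → C)) : Prop :=
  ∀ u : A.V, (∃ S' : Strategy A, S'.Wins W u) → S.Wins W u

/-- A memory structure with set of states `M`. -/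
structure MemStr (A : Arena C) (M : Type) where
  init : M
  upd : M → A.Edge → M

/-- The state of the memory after a finite sequence of edges. -/
def MemStr.run {A : Arena C} {M : Type} (m : MemStr A M) (p : List A.Edge) : M :=
  p.foldl m.upd m.init

/-- A memory structure is chromatic if the update depends only on the colour of the edge. -/
def MemStr.Chromatic {A : Arena C} {M : Type} (m : MemStr A M) : Prop :=
  ∀ (x : M) (e f : A.Edge), e ∈ A.E → f ∈ A.E → e.2.1 = f.2.1 → m.upd x e = m.upd x f

/-- `S` is built on the memory structure `m`: its move after a path depends only on the last node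
of the path and on the state of the memory. -/
def Strategy.BuiltOn {A : Arena C} {M : Type} (S : Strategy A) (m : MemStr A M) : Prop :=
  ∀ (u₁ u₂ : A.V) (p₁ p₂ : List A.Edge) (v : A.V), A.IsPath u₁ p₁ v → A.IsPath u₂ p₂ v →
    v ∈ A.P → m.run p₁ = m.run p₂ → S.move u₁ p₁ = S.move u₂ p₂

/-- In every arena Protagonist has an optimal strategy with `k` states of general memory. -/
def GenOK (W : Set (ℕ → C)) (k : ℕ) : Prop :=
  ∀ A : Arena C, ∃ (m : MemStr A (Fin k)) (S : Strategy A), S.BuiltOn m ∧ S.Optimal W

/-- In every arena Protagonist has an optimal strategy with `k` states of chromatic memory. -/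
def ChrOK (W : Set (ℕ → C)) (k : ℕ) : Prop :=
  ∀ A : Arena C, ∃ (m : MemStr A (Fin k)) (S : Strategy A),
    m.Chromatic ∧ S.BuiltOn m ∧ S.Optimal W

/-- `GenMem W`: the least `k ≥ 1` such that in every arena Protagonist has an optimal strategy
with `k` states of general memory (`⊤` if there is no such `k`). -/
noncomputable def GenMem (W : Set (ℕ → C)) : ℕ∞ :=
  sInf {k : ℕ∞ | ∃ n : ℕ, 1 ≤ n ∧ GenOK W n ∧ k = n}

/-- `ChrMem W`: the least `k ≥ 1` such that in every arena Protagonist has an optimal strategy
with `k` states of chromatic memory (`⊤` if there is no such `k`). -/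
noncomputable def ChrMem (W : Set (ℕ → C)) : ℕ∞ :=
  sInf {k : ℕ∞ | ∃ n : ℕ, 1 ≤ n ∧ ChrOK W n ∧ k = n}

/-- The infinite word `x y` for a finite word `x` and an infinite word `y`. -/
def app (x : List C) (y : ℕ → C) : ℕ → C :=
  fun n => (x[n]?).getD (y (n - x.length))

/-- `W` is prefix-independent. -/
def PrefixIndep (W : Set (ℕ → C)) : Prop :=
  ∀ (x : List C) (y : ℕ → C), app x y ∈ W ↔ y ∈ W

end Pool.Agent.Q199.Mem
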