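import Pool.Agent.Q199.Mem.Words
set_option autoImplicit false

namespace Pool.Agent.Q199.Mem

section
variable {C : Type}

/-- the words with finitely many bad events: a bad event is a letter `r` read with counter
value `0` -/
def coW (op : C → ℕ → ℕ) (r : C) : Set (ℕ → C) :=
  {w | {t | w t = r ∧ runFrom op 1 w t = 0}.Finite}

/-- hypotheses on the operations -/
structure GoodR (op : C → ℕ → ℕ) (r : C) : Prop where
  reset : ∀ n, op r n = 1
  mono : ∀ c i j, le2 i j → le2 (op c i) (op c j)

/-! ### prefix-independence -/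

def badS (op : C → ℕ → ℕ) (r : C) (q : ℕ) (w : ℕ → C) : Set ℕ :=
  {t | w t = r ∧ runFrom op q w t = 0}

theorem bad_aux {op : C → ℕ → ℕ} {r : C} (h : ∀ n, op r n = 1) (q q' : ℕ) (w : ℕ → C)
    (hf : (badS op r q w).Finite) : (badS op r q' w).Finite := by
  by_cases h0 : ∃ t₀, w t₀ = r
  · obtain ⟨t₀, ht₀⟩ := h0
    have hrun : ∀ s, runFrom op q' w (t₀ + 1 + s) = runFrom op q w (t₀ + 1 + s) := by
      intro s
      induction s with
      | zero => simp only [add_zero, runFrom, ht₀, h]
      | succ s ih =>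
        change op _ (runFrom op q' w (t₀ + 1 + s)) = op _ (runFrom op q w (t₀ + 1 + s))
        rw [ih]
    apply (hf.union (Set.finite_Iic t₀)).subset
    rintro t ⟨h1, h2⟩
    rcases Nat.lt_or_ge t₀ t with h3 | h3
    · left
      obtain ⟨s, rfl⟩ := Nat.exists_eq_add_of_lt h3
      refine ⟨h1, ?_⟩
      have := hrun s
      have e : t₀ + s + 1 = t₀ + 1 + s := by omega
      rw [e] at h2 ⊢
      rw [← this]
      exact h2
    · exact Or.inr h3
  · have : badS op r q' w = ∅ := by
      ext t
      simp only [badS, Set.mem_ofPred_eq, Set.mem_empty_iff_false, iff_false]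
      rintro ⟨h1, _⟩
      exact h0 ⟨t, h1⟩
    rw [this]
    exact Set.finite_empty

theorem app_add (x : List C) (y : ℕ → C) (t : ℕ) : app x y (x.length + t) = y t := by
  unfold app
  rw [List.getElem?_eq_none (by omega)]
  simp

theorem runFrom_app (op : C → ℕ → ℕ) (x : List C) (y : ℕ → C) (q : ℕ) :
    ∃ q', ∀ t, runFrom op q (app x y) (x.length + t) = runFrom op q' y t := by
  refine ⟨runFrom op q (app x y) x.length, fun t => ?_⟩
  induction t with
  | zero => rfl
  | succ t ih =>
    change op (app x y (x.length + t)) (runFrom op q (app x y) (x.length + t)) =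
      op (y t) (runFrom op _ y t)
    rw [ih, app_add]

theorem prefixIndep_coW {op : C → ℕ → ℕ} {r : C} (h : ∀ n, op r n = 1) :
    PrefixIndep (coW op r) := by
  intro x y
  obtain ⟨q', hq'⟩ := runFrom_app op x y 1
  have key : ∀ t, x.length + t ∈ badS op r 1 (app x y) ↔ t ∈ badS op r q' y := by
    intro t
    simp only [badS, Set.mem_ofPred_eq, app_add, hq']
  change (badS op r 1 (app x y)).Finite ↔ (badS op r 1 y).Finite
  constructor
  · intro hf
    apply bad_aux h q'
    have : badS op r q' y = (fun t => x.length + t) ⁻¹' badS op r 1 (app x y) := by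
      ext t
      exact (key t).symm
    rw [this]
    exact hf.preimage (fun a _ b _ hab => by simpa using hab)
  · intro hf
    have hf' := bad_aux h 1 q' y hf
    apply ((hf'.image (fun t => x.length + t)).union (Set.finite_Iio x.length)).subset
    intro t ht
    rcases Nat.lt_or_ge t x.length with h1 | h1
    · exact Or.inr h1
    · left
      obtain ⟨s, rfl⟩ := Nat.exists_eq_add_of_le h1
      exact ⟨s, (key s).mp ht, rfl⟩

/-! ### extended counter values -/

open Classical in
/-- operations on extended values (`none` is the top value) -/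
noncomputable def opT (op : C → ℕ → ℕ) (r : C) (c : C) : Option ℕ → Option ℕ
  | none => if c = r then some 1 else none
  | some n => some (op c n)

/-- the order on extended values -/
def leT : Option ℕ → Option ℕ → Prop
  | _, none => True
  | none, some _ => False
  | some i, some j => le2 i j

theorem leT_trans {a b c : Option ℕ} (h1 : leT a b) (h2 : leT b c) : leT a c := by
  cases a <;> cases b <;> cases c <;> simp only [leT] at *
  exact le2_trans h1 h2

theorem leT_zero {a : Option ℕ} (h : leT a (some 0)) : a = some 0 := by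
  cases a with
  | none => exact absurd h (by simp [leT])
  | some i =>
    have := le2_le (show le2 i 0 from h)
    have h2 : i = 0 := by omega
    rw [h2]

theorem leT_none (a : Option ℕ) : leT a none := by cases a <;> trivial

theorem opT_reset {op : C → ℕ → ℕ} {r : C} (h : ∀ n, op r n = 1) (a : Option ℕ) :
    opT op r r a = some 1 := by
  cases a with
  | none => simp [opT]
  | some n => simp [opT, h]

theorem opT_mono {op : C → ℕ → ℕ} {r : C} (h : GoodR op r) (c : C) {a b : Option ℕ}
    (hab : leT a b) : leT (opT op r c a) (opT op r c b) := by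
  cases b with
  | none =>
    by_cases hc : c = r
    · subst hc
      rw [opT_reset h.reset, opT_reset h.reset]
      exact Or.inl rfl
    · have : opT op r c none = none := by simp [opT, hc]
      rw [this]
      exact leT_none _
  | some j =>
    cases a with
    | none => exact absurd hab (by simp [leT])
    | some i => exact h.mono c i j hab

/-! ### the game -/

/-- a bad event on the edge `e` with extended value `q` -/
def badE (r : C) {A : Arena C} (e : A.Edge) (q : Option ℕ) : Prop := e.2.1 = r ∧ q = some 0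

/-- Antagonist can force a bad event within `k` steps while staying outside of `Y` -/
def Att (op : C → ℕ → ℕ) (r : C) (A : Arena C) (Y : Set A.V) : ℕ → A.V → Option ℕ → Prop
  | 0, _, _ => False
  | k + 1, v, q => v ∉ Y ∧
      (v ∉ A.P → ∃ e ∈ A.E, e.1 = v ∧ e.2.2 ∉ Y ∧
        (badE r e q ∨ Att op r A Y k e.2.2 (opT op r e.2.1 q))) ∧
      (v ∈ A.P → ∀ e ∈ A.E, e.1 = v → e.2.2 ∉ Y ∧
        (badE r e q ∨ Att op r A Y k e.2.2 (opT op r e.2.1 q)))

variable {op : C → ℕ → ℕ} {r : C} {A : Arena C} {Y : Set A.V}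

theorem att_mono : ∀ {k k' : ℕ} (_ : k ≤ k') {v : A.V} {q : Option ℕ},
    Att op r A Y k v q → Att op r A Y k' v q
  | 0, _, _, _, _, h => absurd h (by simp [Att])
  | k + 1, 0, hk, _, _, _ => by omega
  | k + 1, k' + 1, hk, v, q, h => by
      obtain ⟨h1, h2, h3⟩ := h
      refine ⟨h1, fun hv => ?_, fun hv e he hs => ?_⟩
      · obtain ⟨e, he, hs, hy, h4⟩ := h2 hv
        exact ⟨e, he, hs, hy, h4.imp id (att_mono (by omega))⟩
      · obtain ⟨hy, h4⟩ := h3 hv e he hs
        exact ⟨hy, h4.imp id (att_mono (by omega))⟩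

theorem att_down (h : GoodR op r) : ∀ {k : ℕ} {v : A.V} {a b : Option ℕ} (_ : leT a b),
    Att op r A Y k v b → Att op r A Y k v a
  | 0, _, _, _, _, h => absurd h (by simp [Att])
  | k + 1, v, a, b, hab, hb => by
      obtain ⟨h1, h2, h3⟩ := hb
      have hbad : ∀ e : A.Edge, badE r e b → badE r e a := by
        rintro e ⟨he1, he2⟩
        subst he2
        exact ⟨he1, leT_zero hab⟩
      refine ⟨h1, fun hv => ?_, fun hv e he hs => ?_⟩
      · obtain ⟨e, he, hs, hy, h4⟩ := h2 hv
        exact ⟨e, he, hs, hy, h4.imp (hbad e) (att_down h (opT_mono h _ hab))⟩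
      · obtain ⟨hy, h4⟩ := h3 hv e he hs
        exact ⟨hy, h4.imp (hbad e) (att_down h (opT_mono h _ hab))⟩

variable (op r A Y) in
/-- Antagonist can force a bad event while staying outside of `Y` -/
def DD (v : A.V) (q : Option ℕ) : Prop := ∃ k, Att op r A Y k v q

theorem DD_down (h : GoodR op r) {v : A.V} {a b : Option ℕ} (hab : leT a b)
    (hb : DD op r A Y v b) : DD op r A Y v a := by
  obtain ⟨k, hk⟩ := hb
  exact ⟨k, att_down h hab hk⟩

theorem DD_not_mem {v : A.V} {q : Option ℕ} (h : DD op r A Y v q) : v ∉ Y := by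
  obtain ⟨k, hk⟩ := h
  cases k with
  | zero => exact absurd hk (by simp [Att])
  | succ k => exact hk.1

theorem safe_P {v : A.V} {q : Option ℕ} (hv : v ∈ A.P) (hY : v ∉ Y) (h : ¬ DD op r A Y v q) :
    ∃ e ∈ A.E, e.1 = v ∧ (e.2.2 ∈ Y ∨
      (¬ badE r e q ∧ ¬ DD op r A Y e.2.2 (opT op r e.2.1 q))) := by
  classical
  by_contra hcon
  push Not at hcon
  apply h
  have : ∀ e : A.Edge, ∃ B, e ∈ A.E → e.1 = v → e.2.2 ∉ Y ∧
      (badE r e q ∨ Att op r A Y B e.2.2 (opT op r e.2.1 q)) := by
    intro e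
    by_cases he : e ∈ A.E
    · by_cases hs : e.1 = v
      · obtain ⟨h1, h2⟩ := hcon e he hs
        by_cases hb : badE r e q
        · exact ⟨0, fun _ _ => ⟨h1, Or.inl hb⟩⟩
        · obtain ⟨k, hk⟩ := h2 hb
          exact ⟨k, fun _ _ => ⟨h1, Or.inr hk⟩⟩
      · exact ⟨0, fun _ h => absurd h hs⟩
    · exact ⟨0, fun h => absurd h he⟩
  choose B hB using this
  refine ⟨A.finE.toFinset.sup B + 1, hY, fun h' => absurd hv h', fun _ e he hs => ?_⟩
  obtain ⟨h1, h2⟩ := hB e he hs
  exact ⟨h1, h2.imp id (att_mono (Finset.le_sup (f := B) (A.finE.mem_toFinset.mpr he)))⟩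

theorem safe_A {v : A.V} {q : Option ℕ} (hv : v ∉ A.P) (hY : v ∉ Y) (h : ¬ DD op r A Y v q) :
    ∀ e ∈ A.E, e.1 = v → (e.2.2 ∈ Y ∨
      (¬ badE r e q ∧ ¬ DD op r A Y e.2.2 (opT op r e.2.1 q))) := by
  intro e he hs
  by_contra hcon
  push Not at hcon
  obtain ⟨h1, h2⟩ := hcon
  apply h
  by_cases hb : badE r e q
  · exact ⟨1, hY, fun _ => ⟨e, he, hs, h1, Or.inl hb⟩, fun h' => absurd h' hv⟩
  · obtain ⟨k, hk⟩ := h2 hb
    exact ⟨k + 1, hY, fun _ => ⟨e, he, hs, h1, Or.inr hk⟩, fun h' => absurd h' hv⟩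

variable (A) in
/-- Protagonist can force to reach `Y` in one step -/
def Pre (Y : Set A.V) (v : A.V) : Prop :=
  (v ∈ A.P ∧ ∃ e ∈ A.E, e.1 = v ∧ e.2.2 ∈ Y) ∨ (v ∉ A.P ∧ ∀ e ∈ A.E, e.1 = v → e.2.2 ∈ Y)

variable (op r A) in
/-- the layers of Protagonist's winning region -/
def Ys : ℕ → Set A.V
  | 0 => ∅
  | j + 1 => {v | Pre A (Ys j) v ∨ ¬ DD op r A (Ys j) v none}

theorem Ys_succ (j : ℕ) : Ys op r A j ⊆ Ys op r A (j + 1) := fun _ hv =>
  Or.inr fun h => DD_not_mem h hv

theorem Ys_mono {i j : ℕ} (h : i ≤ j) : Ys op r A i ⊆ Ys op r A j := by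
  induction h with
  | refl => exact subset_rfl
  | step _ ih => exact ih.trans (Ys_succ _)

theorem exists_J : ∃ J, ∀ j, Ys op r A j ⊆ Ys op r A J := by
  classical
  have := A.finV
  let _ := Fintype.ofFinite A.V
  have : ∀ v : A.V, ∃ j, (∃ i, v ∈ Ys op r A i) → v ∈ Ys op r A j := by
    intro v
    by_cases h : ∃ i, v ∈ Ys op r A i
    · obtain ⟨i, hi⟩ := h
      exact ⟨i, fun _ => hi⟩
    · exact ⟨0, fun h' => absurd h' h⟩
  choose f hf using this
  refine ⟨Finset.univ.sup f, fun j v hv => ?_⟩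
  exact Ys_mono (Finset.le_sup (f := f) (Finset.mem_univ v)) (hf v ⟨j, hv⟩)

/-- Outside of the union of the layers Antagonist can force infinitely many bad events. -/
theorem antagonist (h : GoodR op r) {u : A.V} (hu : ∀ j, u ∉ Ys op r A j) (S : Strategy A) :
    ∃ e, S.Play u e ∧ (fun i => (e i).2.1) ∉ coW op r := by
  classical
  obtain ⟨J, hJ⟩ := exists_J (op := op) (r := r) (A := A)
  set Y := Ys op r A J with hYdef
  have hout : ∀ v, v ∉ Y → DD op r A Y v none := by
    intro v hv
    by_contra hcon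
    exact hv (hJ (J + 1) (Or.inr hcon))
  obtain ⟨K, hK⟩ : ∃ K, ∀ v, v ∉ Y → Att op r A Y K v none := by
    have := A.finV
    let _ := Fintype.ofFinite A.V
    have : ∀ v : A.V, ∃ k, v ∉ Y → Att op r A Y k v none := by
      intro v
      by_cases hv : v ∉ Y
      · obtain ⟨k, hk⟩ := hout v hv
        exact ⟨k, fun _ => hk⟩
      · exact ⟨0, fun h' => absurd h' hv⟩
    choose f hf using this
    exact ⟨Finset.univ.sup f, fun v hv =>
      att_mono (Finset.le_sup (f := f) (Finset.mem_univ v)) (hf v hv)⟩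
  let G : ℕ × Option ℕ → A.Edge → ℕ × Option ℕ := fun x e =>
    if badE r e x.2 then (K, none) else (x.1 - 1, opT op r e.2.1 x.2)
  let gs : List A.Edge → ℕ × Option ℕ := fun p => p.foldl G (K, none)
  have gs_snoc : ∀ p e, gs (p ++ [e]) = G (gs p) e := by
    intro p e
    simp only [gs, List.foldl_append, List.foldl_cons, List.foldl_nil]
  have step : ∀ (x : ℕ × Option ℕ) (e : A.Edge) (k : ℕ), x.1 = k + 1 → e.2.2 ∉ Y →
      (badE r e x.2 ∨ Att op r A Y k e.2.2 (opT op r e.2.1 x.2)) →
      Att op r A Y (G x e).1 e.2.2 (G x e).2 := by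
    intro x e k hk hy h1
    by_cases hb : badE r e x.2
    · simp only [G, if_pos hb]
      exact hK _ hy
    · simp only [G, if_neg hb, hk, Nat.add_sub_cancel]
      exact h1.resolve_left hb
  have key := exists_play S u (fun p v => v ∉ Y ∧ Att op r A Y (gs p).1 v (gs p).2)
    ⟨hu J, hK u (hu J)⟩ ?_ ?_
  · obtain ⟨e, he, hinv⟩ := key
    refine ⟨e, he, ?_⟩
    set w : ℕ → C := fun i => (e i).2.1 with hw
    let x : ℕ → ℕ × Option ℕ := fun t => gs ((List.range t).map e)
    have hx : ∀ t, x (t + 1) = G (x t) (e t) := by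
      intro t
      simp only [x]
      rw [List.range_succ, List.map_append]
      exact gs_snoc _ _
    have hle : ∀ t, leT (some (runFrom op 1 w t)) (x t).2 := by
      intro t
      induction t with
      | zero => exact leT_none _
      | succ t ih =>
        rw [hx]
        by_cases hb : badE r (e t) (x t).2
        · simp only [G, if_pos hb]
          exact leT_none _
        · simp only [G, if_neg hb]
          exact opT_mono h (e t).2.1 ih
    have hinf : ∀ T, ∃ t, T ≤ t ∧ badE r (e t) (x t).2 := by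
      intro T
      by_contra hcon
      push Not at hcon
      have hdec : ∀ s, (x (T + s)).1 + s ≤ (x T).1 := by
        intro s
        induction s with
        | zero => simp
        | succ s ih =>
          have h1 := hx (T + s)
          simp only [G, if_neg (hcon (T + s) (by omega))] at h1
          have h2 : 1 ≤ (x (T + s)).1 := by
            by_contra h3
            have h4 : (x (T + s)).1 = 0 := by omega
            have h5 := (hinv (T + s)).2
            change Att op r A Y (x (T + s)).1 _ (x (T + s)).2 at h5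
            rw [h4] at h5
            simp [Att] at h5
          have h6 : (x (T + (s + 1))).1 = (x (T + s)).1 - 1 := by
            rw [← add_assoc, h1]
          omega
      have := hdec ((x T).1 + 1)
      omega
    intro hfin
    obtain ⟨M, hM⟩ := hfin.bddAbove
    obtain ⟨t, ht, hb1, hb2⟩ := hinf (M + 1)
    have h1 := hle t
    rw [hb2] at h1
    have h2 := leT_zero h1
    have h3 : runFrom op 1 w t = 0 := by simpa using h2
    have := hM ⟨hb1, h3⟩
    omega
  · rintro p v hp ⟨hy, ha⟩ hv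
    obtain ⟨h1, h2⟩ := S.valid u p v hp hv
    rcases hk : (gs p).1 with _ | k
    · rw [hk] at ha
      simp [Att] at ha
    · rw [hk] at ha
      obtain ⟨_, _, h3⟩ := ha
      obtain ⟨h4, h5⟩ := h3 hv _ h1 h2
      refine ⟨h4, ?_⟩
      rw [gs_snoc]
      exact step _ _ k hk h4 h5
  · rintro p v hp ⟨hy, ha⟩ hv
    rcases hk : (gs p).1 with _ | k
    · rw [hk] at ha
      simp [Att] at ha
    · rw [hk] at ha
      obtain ⟨_, h3, _⟩ := ha
      obtain ⟨e, he, hs, h4, h5⟩ := h3 hv
      refine ⟨e, he, hs, h4, ?_⟩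
      rw [gs_snoc]
      exact step _ _ k hk h4 h5

/-- parity of an extended value -/
def parT : Option ℕ → Fin 2
  | none => 0
  | some n => par n

/-- Two states of general memory suffice for the prefix-independent condition. -/
theorem genOK_coW (h : GoodR op r) : GenOK (coW op r) 2 := by
  classical
  intro A
  let Ystar : Set A.V := {v | ∃ j, v ∈ Ys op r A j}
  have hex : ∀ v, v ∈ Ystar → ∃ j, v ∈ Ys op r A (j + 1) := by
    rintro v ⟨j, hj⟩
    exact ⟨j, Ys_succ j hj⟩
  let rk : A.V → ℕ := fun v => if h : ∃ j, v ∈ Ys op r A (j + 1) then Nat.find h else 0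
  have rk_mem : ∀ v, v ∈ Ystar → v ∈ Ys op r A (rk v + 1) := by
    intro v hv
    have h1 := hex v hv
    simp only [rk, dif_pos h1]
    exact Nat.find_spec h1
  have rk_le : ∀ v j, v ∈ Ys op r A (j + 1) → rk v ≤ j := by
    intro v j hj
    have h1 : ∃ j, v ∈ Ys op r A (j + 1) := ⟨j, hj⟩
    simp only [rk, dif_pos h1]
    exact Nat.find_min' h1 hj
  have rk_lt : ∀ v j, v ∈ Ys op r A j → rk v < j := by
    intro v j hj
    cases j with
    | zero => exact absurd hj (by simp [Ys])
    | succ j => exact Nat.lt_succ_of_le (rk_le v j hj)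
  have rk_not : ∀ v, v ∉ Ys op r A (rk v) := fun v hv => lt_irrefl _ (rk_lt v _ hv)
  let HR : A.V → Fin 2 → Prop := fun v i =>
    ∃ n, par n = i ∧ ¬ DD op r A (Ys op r A (rk v)) v (some n)
  let rep : A.V → Fin 2 → Option ℕ := fun v i =>
    if h : HR v i then some (Nat.find h) else none
  let tA : A.V → Prop := fun v => ¬ DD op r A (Ys op r A (rk v)) v none
  have rep_spec : ∀ v i, tA v → ¬ DD op r A (Ys op r A (rk v)) v (rep v i) := by
    intro v i hv
    by_cases h1 : HR v i
    · simp only [rep, dif_pos h1]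
      exact (Nat.find_spec h1).2
    · simp only [rep, dif_neg h1]
      exact hv
  have rep_le : ∀ v q, ¬ DD op r A (Ys op r A (rk v)) v q → leT (rep v (parT q)) q := by
    intro v q hq
    cases q with
    | none => exact leT_none _
    | some n =>
      have h1 : HR v (par n) := ⟨n, rfl, hq⟩
      have h2 : Nat.find h1 ≤ n := Nat.find_min' h1 ⟨rfl, hq⟩
      have h3 := (Nat.find_spec h1).1
      rw [par_eq] at h3
      simp only [parT, rep, dif_pos h1, leT, le2]
      omega
  have choice : ∀ v i, ∃ e : A.Edge, (e ∈ A.E ∧ e.1 = v) ∧ (v ∈ A.P → v ∈ Ystar →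
      (e.2.2 ∈ Ys op r A (rk v) ∨ (tA v ∧ ¬ badE r e (rep v i) ∧
        ¬ DD op r A (Ys op r A (rk v)) e.2.2 (opT op r e.2.1 (rep v i))))) := by
    intro v i
    by_cases hv : v ∈ A.P ∧ v ∈ Ystar
    · by_cases ht : tA v
      · obtain ⟨e, he, hs, h1⟩ := safe_P hv.1 (rk_not v) (rep_spec v i ht)
        exact ⟨e, ⟨he, hs⟩, fun _ _ => h1.imp id fun h2 => ⟨ht, h2⟩⟩
      · rcases rk_mem v hv.2 with (⟨_, e, he, hs, h1⟩ | ⟨h1, _⟩) | h1
        · exact ⟨e, ⟨he, hs⟩, fun _ _ => Or.inl h1⟩
        · exact absurd hv.1 h1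
        · exact absurd h1 ht
    · obtain ⟨c, w, hw⟩ := A.out v
      exact ⟨_, ⟨hw, rfl⟩, fun h1 h2 => absurd ⟨h1, h2⟩ hv⟩
  choose ch hch hch2 using choice
  have stepA : ∀ v i, v ∉ A.P → v ∈ Ystar → ∀ e ∈ A.E, e.1 = v →
      (e.2.2 ∈ Ys op r A (rk v) ∨ (tA v ∧ ¬ badE r e (rep v i) ∧
        ¬ DD op r A (Ys op r A (rk v)) e.2.2 (opT op r e.2.1 (rep v i)))) := by
    intro v i hv hvY e he hs
    by_cases ht : tA v
    · exact (safe_A hv (rk_not v) (rep_spec v i ht) e he hs).imp id fun h2 => ⟨ht, h2⟩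
    · rcases rk_mem v hvY with (⟨h1, _⟩ | ⟨_, h1⟩) | h1
      · exact absurd h1 hv
      · exact Or.inl (h1 e he hs)
      · exact absurd h1 ht
  let m : MemStr A (Fin 2) := ⟨0, fun i e => parT (opT op r e.2.1 (rep e.1 i))⟩
  refine ⟨m, stratOf m ch hch, stratOf_builtOn m ch hch, ?_⟩
  rintro u ⟨S', hS'⟩ e he
  have huY : u ∈ Ystar := by
    by_contra hcon
    obtain ⟨e', he', h1⟩ := antagonist h (fun j hj => hcon ⟨j, hj⟩) S'
    exact h1 (hS' e' he')
  set w : ℕ → C := fun i => (e i).2.1 with hw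
  let x : ℕ → Fin 2 := fun t => m.run ((List.range t).map e)
  have hx : ∀ t, x (t + 1) = parT (opT op r (e t).2.1 (rep (e t).1 (x t))) := fun t =>
    run_succ m e t
  have step : ∀ t, (e t).1 ∈ Ystar →
      ((e (t + 1)).1 ∈ Ys op r A (rk (e t).1) ∨ (tA (e t).1 ∧
        ¬ badE r (e t) (rep (e t).1 (x t)) ∧
        ¬ DD op r A (Ys op r A (rk (e t).1)) (e (t + 1)).1
          (opT op r (e t).2.1 (rep (e t).1 (x t))))) := by
    intro t ht
    rw [he.2.2.1 t]
    by_cases hv : (e t).1 ∈ A.P
    · have hmv := play_stratOf he t hv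
      have h1 := hch2 (e t).1 (x t) hv ht
      change e t = ch (e t).1 (x t) at hmv
      rw [← hmv] at h1
      exact h1
    · exact stepA (e t).1 (x t) hv ht (e t) (he.2.1 t) rfl
  have mem_step : ∀ t, (e t).1 ∈ Ystar → (e (t + 1)).1 ∈ Ys op r A (rk (e t).1 + 1) := by
    intro t ht
    rcases step t ht with h1 | ⟨_, _, h1⟩
    · exact Ys_succ _ h1
    · exact Or.inr fun h2 => h1 (DD_down h (leT_none _) h2)
  have hall : ∀ t, (e t).1 ∈ Ystar := by
    intro t
    induction t with
    | zero => rw [he.1]; exact huY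
    | succ t ih => exact ⟨_, mem_step t ih⟩
  have hanti : ∀ t, rk (e (t + 1)).1 ≤ rk (e t).1 := fun t => rk_le _ _ (mem_step t (hall t))
  have hanti' : ∀ t s, rk (e (t + s)).1 ≤ rk (e t).1 := by
    intro t s
    induction s with
    | zero => exact le_rfl
    | succ s ih => exact (hanti (t + s)).trans ih
  obtain ⟨T, hT⟩ : ∃ T, ∀ t, T ≤ t → rk (e t).1 = rk (e T).1 := by
    have hne : ∃ ρ, ∃ T, rk (e T).1 = ρ := ⟨_, 0, rfl⟩
    obtain ⟨T, hT⟩ := Nat.find_spec hne
    refine ⟨T, fun t ht => le_antisymm ?_ ?_⟩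
    · obtain ⟨s, rfl⟩ := Nat.exists_eq_add_of_le ht
      exact hanti' T s
    · rw [hT]
      exact Nat.find_min' hne ⟨t, rfl⟩
  have hsafe : ∀ t, T ≤ t → tA (e t).1 ∧ ¬ badE r (e t) (rep (e t).1 (x t)) ∧
      leT (rep (e (t + 1)).1 (x (t + 1))) (opT op r (e t).2.1 (rep (e t).1 (x t))) := by
    intro t ht
    rcases step t (hall t) with h1 | ⟨h1, h2, h3⟩
    · have h2 := rk_lt _ _ h1
      have h3 := hT t ht
      have h4 := hT (t + 1) (by omega)
      omega
    · refine ⟨h1, h2, ?_⟩
      rw [hx]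
      apply rep_le
      have h4 : rk (e (t + 1)).1 = rk (e t).1 := by
        rw [hT t ht, hT (t + 1) (by omega)]
      rw [h4]
      exact h3
  change {t | w t = r ∧ runFrom op 1 w t = 0}.Finite
  by_cases hr : ∃ t₀, T ≤ t₀ ∧ w t₀ = r
  · obtain ⟨t₀, ht₀, hr⟩ := hr
    have hle : ∀ s, leT (rep (e (t₀ + 1 + s)).1 (x (t₀ + 1 + s)))
        (some (runFrom op 1 w (t₀ + 1 + s))) := by
      intro s
      induction s with
      | zero =>
        have h1 := (hsafe t₀ ht₀).2.2
        have h2 : (e t₀).2.1 = r := hr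
        rw [h2, opT_reset h.reset] at h1
        have h3 : runFrom op 1 w (t₀ + 1 + 0) = 1 := by
          change op (w t₀) _ = 1
          rw [hr, h.reset]
        rw [h3]
        exact h1
      | succ s ih =>
        exact leT_trans (hsafe (t₀ + 1 + s) (by omega)).2.2 (opT_mono h (e (t₀ + 1 + s)).2.1 ih)
    apply (Set.finite_Iic t₀).subset
    rintro t ⟨h1, h2⟩
    by_contra h3
    simp only [Set.mem_Iic, not_le] at h3
    obtain ⟨s, rfl⟩ := Nat.exists_eq_add_of_lt h3
    have h4 := hle s
    have e4 : t₀ + s + 1 = t₀ + 1 + s := by omega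
    rw [e4] at h1 h2
    rw [h2] at h4
    exact (hsafe (t₀ + 1 + s) (by omega)).2.1 ⟨h1, leT_zero h4⟩
  · push Not at hr
    apply (Set.finite_Iio T).subset
    rintro t ⟨h1, h2⟩
    by_contra h3
    simp only [Set.mem_Iio, not_lt] at h3
    exact hr t h3 h1

end

/-- The counter operations of the prefix-independent example: colours `0, 1, 2, 3` as in `op4`,
colour `4` resets the counter to `1`. -/
def op5 (c : Fin 5) (n : ℕ) : ℕ :=
  match c with
  | 0 => n - 1
  | 1 => if n = 2 then 0 else n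
  | 2 => if n = 0 then 0 else n + 1
  | 3 => if n = 0 then 0 else 2 * n + (if IsSquare n then 1 else 0)
  | 4 => 1

theorem goodR5 : GoodR op5 4 where
  reset := fun _ => rfl
  mono := by
    intro c i j hij
    fin_cases c
    · exact good4.mono 0 hij
    · exact good4.mono 1 hij
    · exact good4.mono 2 hij
    · exact good4.mono 3 hij
    · exact Or.inl rfl

theorem not_chrOK5 (k : ℕ) : ¬ ChrOK (coW op5 4) k := by
  intro hk
  obtain ⟨A, u, ⟨S', hS'⟩, hneg⟩ := words_main op5 0 1 2 3 4 (fun _ => rfl) (fun _ => rfl)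
    (fun _ => rfl) (fun _ => rfl) rfl (Or.inl rfl) k
  obtain ⟨m, S, hm, hb, hopt⟩ := hk A
  obtain ⟨e, he, hT⟩ := hneg m S hm hb
  have hwin : S'.Wins (coW op5 4) u := by
    intro e' he'
    have : {t | (fun i => (e' i).2.1) t = 4 ∧ runFrom op5 1 (fun i => (e' i).2.1) t = 0} = ∅ := by
      ext t
      simp only [Set.mem_ofPred_eq, Set.mem_empty_iff_false, iff_false]
      rintro ⟨_, h2⟩
      exact hS' e' he' t h2
    change Set.Finite _
    rw [this]
    exact Set.finite_empty
  have hfin : Set.Finite _ := hopt u ⟨S', hwin⟩ e he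
  obtain ⟨M, hM⟩ := hfin.bddAbove
  obtain ⟨t, ht, h1, h2⟩ := hT (M + 1)
  have := hM ⟨h1, h2⟩
  omega

end Pool.Agent.Q199.Mem
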