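import Pool.Agent.Q199.Mem.Cyc
set_option autoImplicit false

namespace Pool.Agent.Q199.Mem

section
variable {C : Type} {op : C → ℕ → ℕ}

theorem stw_S {s : C} (hs : ∀ n, op s n = if n = 0 then 0 else n + 1) :
    ∀ (j q : ℕ), 1 ≤ q → stw op q (List.replicate j s) = q + j
  | 0, q, _ => rfl
  | j + 1, q, hq => by
      rw [List.replicate_succ, stw_cons, hs, if_neg (by omega), stw_S hs j (q + 1) (by omega)]
      omega

theorem stw_A {a : C} (ha : ∀ n, op a n = n - 1) :
    ∀ (j q : ℕ), stw op q (List.replicate j a) = q - j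
  | 0, q => rfl
  | j + 1, q => by
      rw [List.replicate_succ, stw_cons, ha, stw_A ha j (q - 1)]
      omega

theorem foldl_replicate {M : Type} (f : C → M → M) (c : C) : ∀ (j : ℕ) (x : M),
    (List.replicate j c).foldl (fun x c => f c x) x = (f c)^[j] x
  | 0, x => rfl
  | j + 1, x => by
      rw [List.replicate_succ, List.foldl_cons, foldl_replicate f c j, Function.iterate_succ_apply]

end

theorem words_main {C : Type} [Finite C] (op : C → ℕ → ℕ) (a b s d g : C)
    (ha : ∀ n, op a n = n - 1) (hb : ∀ n, op b n = if n = 2 then 0 else n)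
    (hs : ∀ n, op s n = if n = 0 then 0 else n + 1)
    (hd : ∀ n, op d n = if n = 0 then 0 else 2 * n + (if IsSquare n then 1 else 0))
    (hg1 : op g 1 = 1) (hg0 : op g 0 = 1 ∨ ∀ c, op c 0 = 0) (k : ℕ) :
    ∃ (A : Arena C) (u : A.V),
      (∃ S : Strategy A, ∀ e, S.Play u e → ∀ t, runFrom op 1 (fun i => (e i).2.1) t ≠ 0) ∧
      ∀ (m : MemStr A (Fin k)) (S : Strategy A), m.Chromatic → S.BuiltOn m →
        ∃ e, S.Play u e ∧ ∀ T, ∃ t, T ≤ t ∧ (e t).2.1 = g ∧
          runFrom op 1 (fun i => (e i).2.1) t = 0 := by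
  obtain ⟨K, hK3, c₀, hK⟩ : ∃ K, k + 3 ≤ K ∧ ∃ c, K = k.factorial * c := by
    obtain ⟨c, hc⟩ := Nat.factorial_dvd_factorial (show k ≤ k + 3 by omega)
    exact ⟨(k + 3).factorial, Nat.self_le_factorial _, c, hc⟩
  obtain ⟨α, hα⟩ : ∃ α, 1 + α = K * K := ⟨K * K - 1, by
    have : 1 ≤ K * K := Nat.mul_pos (by omega) (by omega)
    omega⟩
  have hKK : K ≤ K * K := Nat.le_mul_of_pos_left K (by omega)
  have hKK3 : 3 * K ≤ K * K := Nat.mul_le_mul_right K (by omega)
  have hkα : k ≤ α := by omega
  have hnsq : ¬ IsSquare (1 + (α + K)) := by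
    rintro ⟨m, hm⟩
    have h1 : K * K + K = m * m := by omega
    rcases Nat.lt_or_ge K m with h2 | h2
    · have : (K + 1) * (K + 1) ≤ m * m := Nat.mul_le_mul h2 h2
      nlinarith
    · have : m * m ≤ K * K := Nat.mul_le_mul h2 h2
      omega
  have hsq : IsSquare (1 + α) := ⟨K, hα⟩
  have hz : ∀ n, op b n = if n = 2 then 0 else n := hb
  have o1 : op a 0 = 0 := ha 0
  have o2 : op b 0 = 0 := by rw [hb]; simp
  have o3 : op s 0 = 0 := by rw [hs]; simp
  have o4 : op d 0 = 0 := by rw [hd]; simp
  set N := 2 * (K * K) + 3 * K with hN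
  have iter : ∀ (f : Fin k → Fin k) (x : Fin k) (n : ℕ), k ≤ n → f^[n + K] x = f^[n] x := by
    intro f x n hn
    rw [hK]
    exact iterate_aux f x hn c₀
  apply cyc_main op g b k N
    (List.replicate α s ++ d :: List.replicate (3 * K) s)
    (List.replicate (α + K) s ++ d :: List.replicate K s)
    (List.replicate (N - 1) a ++ [b]) (List.replicate N a ++ [b])
  · omega
  · rw [stw_append, stw_S hs _ _ le_rfl, stw_cons, hd, if_neg (by omega), if_pos hsq,
      stw_S hs _ _ (by omega)]
    omega
  · rw [stw_append, stw_S hs _ _ le_rfl, stw_cons, hd, if_neg (by omega), if_neg hnsq,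
      stw_S hs _ _ (by omega)]
    omega
  · rw [stw_cons, hb, if_neg (by omega), stw_append, stw_A ha, stw_cons, hb]
    have : N + 1 - (N - 1) = 2 := by omega
    rw [if_pos this]
    rfl
  · rw [stw_cons, hb, if_neg (by omega), stw_append, stw_A ha, stw_cons, hb]
    have : N + 1 - N = 1 := by omega
    rw [this]
    rfl
  · rw [stw_cons, hb, if_neg (by omega), stw_append, stw_A ha, stw_cons, hb]
    have : N - (N - 1) = 1 := by omega
    rw [this]
    rfl
  · rw [stw_cons, hb, if_neg (by omega), stw_append, stw_A ha, stw_cons, hb]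
    have : N - N = 0 := by omega
    rw [this]
    rfl
  · exact hg1
  · exact hg0
  · intro c hc
    simp only [List.mem_append, List.mem_replicate, List.mem_cons] at hc
    rcases hc with ⟨_, rfl⟩ | rfl | ⟨_, rfl⟩ <;> assumption
  · intro c hc
    simp only [List.mem_append, List.mem_replicate, List.mem_cons] at hc
    rcases hc with ⟨_, rfl⟩ | rfl | ⟨_, rfl⟩ <;> assumption
  · intro c hc
    simp only [List.mem_append, List.mem_replicate, List.mem_cons, List.not_mem_nil,
      or_false] at hc
    rcases hc with ⟨_, rfl⟩ | rfl <;> assumption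
  · intro c hc
    simp only [List.mem_append, List.mem_replicate, List.mem_cons, List.not_mem_nil,
      or_false] at hc
    rcases hc with ⟨_, rfl⟩ | rfl <;> assumption
  · intro f x
    rw [List.foldl_append, List.foldl_append, List.foldl_cons, List.foldl_cons,
      foldl_replicate, foldl_replicate, foldl_replicate, foldl_replicate, iter _ _ _ hkα]
    have : 3 * K = K + K + K := by ring
    rw [this, iter _ _ _ (by omega), iter _ _ _ (by omega)]

/-- The counter operations of the example: colour `0` decrements the counter, colour `1` tests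
whether it is `2` (and resets it to `0` if so), colour `2` increments it, colour `3` sends `n` to
`2n + 1` if `n` is a perfect square and to `2n` otherwise; `0` is absorbing. -/
def op4 (c : Fin 4) (n : ℕ) : ℕ :=
  match c with
  | 0 => n - 1
  | 1 => if n = 2 then 0 else n
  | 2 => if n = 0 then 0 else n + 1
  | 3 => if n = 0 then 0 else 2 * n + (if IsSquare n then 1 else 0)

theorem op4_zero : ∀ c, op4 c 0 = 0 := by
  intro c
  fin_cases c <;> simp [op4]

theorem good4 : Good op4 where
  zero := op4_zero
  exp := by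
    intro c i j hi hij
    fin_cases c
    · change i - 1 = 0 ∨ i - 1 + (j - i) ≤ j - 1
      omega
    · change (if i = 2 then 0 else i) = 0 ∨
        (if i = 2 then 0 else i) + (j - i) ≤ (if j = 2 then 0 else j)
      by_cases h : i = 2
      · left
        rw [if_pos h]
      · right
        rw [if_neg h, if_neg (by omega)]
        omega
    · change (if i = 0 then 0 else i + 1) = 0 ∨
        (if i = 0 then 0 else i + 1) + (j - i) ≤ (if j = 0 then 0 else j + 1)
      right
      rw [if_neg (by omega), if_neg (by omega)]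
      omega
    · change (if i = 0 then 0 else 2 * i + (if IsSquare i then 1 else 0)) = 0 ∨
        (if i = 0 then 0 else 2 * i + (if IsSquare i then 1 else 0)) + (j - i) ≤
          (if j = 0 then 0 else 2 * j + (if IsSquare j then 1 else 0))
      right
      rw [if_neg (show ¬ i = 0 by omega), if_neg (show ¬ j = 0 by omega)]
      split_ifs <;> omega

theorem not_chrOK4 (k : ℕ) : ¬ ChrOK (safeW op4) k := by
  intro hk
  obtain ⟨A, u, ⟨S', hS'⟩, hneg⟩ := words_main op4 0 1 2 3 1 (fun _ => rfl) (fun _ => rfl)
    (fun _ => rfl) (fun _ => rfl) rfl (Or.inr op4_zero) k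
  obtain ⟨m, S, hm, hb, hopt⟩ := hk A
  obtain ⟨e, he, hT⟩ := hneg m S hm hb
  obtain ⟨t, _, _, ht⟩ := hT 0
  exact hopt u ⟨S', hS'⟩ e he t ht

theorem continuous_run {C : Type} [TopologicalSpace C] [DiscreteTopology C] (op : C → ℕ → ℕ)
    (q : ℕ) : ∀ t, Continuous fun w : ℕ → C => runFrom op q w t
  | 0 => continuous_const
  | t + 1 => by
      have h1 : Continuous fun w : ℕ → C => (w t, runFrom op q w t) :=
        (continuous_apply t).prodMk (continuous_run op q t)
      have h2 : Continuous fun x : C × ℕ => op x.1 x.2 := continuous_of_discreteTopology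
      exact h2.comp h1

theorem isClosed_safeW {C : Type} [TopologicalSpace C] [DiscreteTopology C] (op : C → ℕ → ℕ) :
    IsClosed (safeW op) := by
  have : safeW op = ⋂ t, (fun w : ℕ → C => runFrom op 1 w t) ⁻¹' {n | n ≠ 0} := by
    ext w
    simp [safeW]
  rw [this]
  exact isClosed_iInter fun t => (isClosed_discrete _).preimage (continuous_run op 1 t)

end Pool.Agent.Q199.Mem
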